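import Pool.Agent.Lib.Pb48dd4.Reduction

/-!
# Gromov's question on balanced vertices of planar geodesic nets

There is a function `F` such that every geodesic net in the Euclidean plane, and more generally
every geodesic multinet, with `n` unbalanced vertices and total imbalance at most `I` has at most
`F n I` balanced vertices.
-/

namespace Pool.Agent.Results.MP_b48dd4_gt.GromovBound

open Pool.Agent.Lib.Pb48dd4

theorem result : ∃ F : ℕ → ℝ → ℕ, ∀ D : Drawing, D.IsGeodesicMultinet →
    ∀ I : ℝ, D.totalImbalance ≤ I → D.balanced.card ≤ F D.unbalanced.card I := by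
  choose B hB using exists_bound
  refine ⟨fun n I => B (⌊I⌋₊ + 2 * n + 1), ?_⟩
  intro D hD I hI
  obtain ⟨ι, δ, i1, i2, 𝒩, h1, h2⟩ := D.reduction hD hI
  exact h2.trans (hB _ ι δ 𝒩 (Nat.lt_succ_of_le h1))

end Pool.Agent.Results.MP_b48dd4_gt.GromovBound
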